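import Mathlib

/-! H17/SR/Defs: the scale rule for two families, statement (C1) of helper56 in normal form.
The plane is `ℝ × ℝ` with the barycentric coordinates `u1 = x`, `u2 = y`, `u3 = 1 - x - y`. -/

set_option autoImplicit false

namespace Pool.Agent.H17.SR

/-- `S` is covered by three translates of `L`. -/
def Cov3 (L S : Set (ℝ × ℝ)) : Prop :=
  ∃ v1 v2 v3 : ℝ × ℝ, ∀ s ∈ S, s - v1 ∈ L ∨ s - v2 ∈ L ∨ s - v3 ∈ L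

/-- Normal form of (C1): `L` lies in the triangle `u_i ≥ 0` and touches its three sides, `P_i` is a
point of `L` with `u_i(P_i)` maximal, `lam > 1` and `lam * (t1 + t2 + t3) < u1(P1) + u2(P2) + u3(P3)`.
Then `lam` times the set of the points `p` of `L` with `u_i(p) ≤ t_i` is covered by three translates
of `L`. -/
def C1N : Prop :=
  ∀ L : Set (ℝ × ℝ), IsCompact L → Convex ℝ L → (interior L).Nonempty →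
  (∀ p ∈ L, 0 ≤ p.1 ∧ 0 ≤ p.2 ∧ p.1 + p.2 ≤ 1) →
  (∃ p ∈ L, p.1 = 0) → (∃ p ∈ L, p.2 = 0) → (∃ p ∈ L, p.1 + p.2 = 1) →
  ∀ P1 P2 P3 : ℝ × ℝ, P1 ∈ L → P2 ∈ L → P3 ∈ L →
  (∀ p ∈ L, p.1 ≤ P1.1) → (∀ p ∈ L, p.2 ≤ P2.2) → (∀ p ∈ L, P3.1 + P3.2 ≤ p.1 + p.2) →
  ∀ lam : ℝ, 1 < lam → ∀ t1 t2 t3 : ℝ,
  lam * (t1 + t2 + t3) < P1.1 + P2.2 + (1 - P3.1 - P3.2) →
  Cov3 L {q | ∃ p ∈ L, p.1 ≤ t1 ∧ p.2 ≤ t2 ∧ 1 - p.1 - p.2 ≤ t3 ∧ q = lam • p}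

/-- The same with three functionals `n_i` of sum zero, any two of them independent. -/
def C1G : Prop :=
  ∀ L : Set (ℝ × ℝ), IsCompact L → Convex ℝ L → (interior L).Nonempty →
  ∀ n1 n2 n3 : ℝ × ℝ, n1 + n2 + n3 = 0 → n1.1 * n2.2 - n1.2 * n2.1 ≠ 0 →
  ∀ P1 P2 P3 Q1 Q2 Q3 : ℝ × ℝ, P1 ∈ L → P2 ∈ L → P3 ∈ L → Q1 ∈ L → Q2 ∈ L → Q3 ∈ L →
  (∀ p ∈ L, n1.1 * P1.1 + n1.2 * P1.2 ≤ n1.1 * p.1 + n1.2 * p.2 ∧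
    n1.1 * p.1 + n1.2 * p.2 ≤ n1.1 * Q1.1 + n1.2 * Q1.2) →
  (∀ p ∈ L, n2.1 * P2.1 + n2.2 * P2.2 ≤ n2.1 * p.1 + n2.2 * p.2 ∧
    n2.1 * p.1 + n2.2 * p.2 ≤ n2.1 * Q2.1 + n2.2 * Q2.2) →
  (∀ p ∈ L, n3.1 * P3.1 + n3.2 * P3.2 ≤ n3.1 * p.1 + n3.2 * p.2 ∧
    n3.1 * p.1 + n3.2 * p.2 ≤ n3.1 * Q3.1 + n3.2 * Q3.2) →
  ∀ lam : ℝ, 1 < lam → ∀ r1 r2 r3 : ℝ,
  r1 + r2 + r3 < (n1.1 * Q1.1 + n1.2 * Q1.2 - (n1.1 * P1.1 + n1.2 * P1.2)) +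
    (n2.1 * Q2.1 + n2.2 * Q2.2 - (n2.1 * P2.1 + n2.2 * P2.2)) +
    (n3.1 * Q3.1 + n3.2 * Q3.2 - (n3.1 * P3.1 + n3.2 * P3.2)) →
  Cov3 L {q | ∃ p ∈ L, lam * (n1.1 * Q1.1 + n1.2 * Q1.2 - (n1.1 * p.1 + n1.2 * p.2)) ≤ r1 ∧
    lam * (n2.1 * Q2.1 + n2.2 * Q2.2 - (n2.1 * p.1 + n2.2 * p.2)) ≤ r2 ∧
    lam * (n3.1 * Q3.1 + n3.2 * Q3.2 - (n3.1 * p.1 + n3.2 * p.2)) ≤ r3 ∧ q = lam • p}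

end Pool.Agent.H17.SR
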