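import Pool.Agent.H17.SR.Two
import Pool.Agent.H83.Sym.Main

/-! H17/SR/Final: the statement (C1) in normal form implies the problem for two families and all
compact convex sets of the plane. -/

set_option autoImplicit false

open scoped Pointwise

namespace Pool.Agent.H17.SR

abbrev E2 := EuclideanSpace ℝ (Fin 2)

lemma collinear_of_interior_empty {K : Set E2} (hKv : Convex ℝ K)
    (hint : ¬ (interior K).Nonempty) {p q x : E2} (hp : p ∈ K) (hq : q ∈ K) (hx : x ∈ K) :
    Collinear ℝ ({p, q, x} : Set E2) := by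
  by_contra hcon
  apply hint
  rw [← affineIndependent_iff_not_collinear_set] at hcon
  have hspan : affineSpan ℝ (Set.range ![p, q, x]) = ⊤ := by
    rw [hcon.affineSpan_eq_top_iff_card_eq_finrank_add_one]
    simp
  rw [hKv.interior_nonempty_iff_affineSpan_eq_top]
  apply top_le_iff.1
  rw [← hspan]
  apply affineSpan_mono
  rintro _ ⟨i, rfl⟩
  fin_cases i
  · exact hp
  · exact hq
  · exact hx

lemma line_point {p q x : E2} (hpq : p ≠ q) (h : Collinear ℝ ({p, q, x} : Set E2)) :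
    ∃ r : ℝ, x = p + r • (q - p) := by
  rw [collinear_iff_of_mem (p₀ := p) (by simp)] at h
  obtain ⟨v, hv⟩ := h
  obtain ⟨r1, h1⟩ := hv q (by simp)
  obtain ⟨r2, h2⟩ := hv x (by simp)
  rw [vadd_eq_add] at h1 h2
  have hr1 : r1 ≠ 0 := by
    intro h0
    apply hpq
    rw [h1, h0, zero_smul, zero_add]
  refine ⟨r2 * r1⁻¹, ?_⟩
  rw [h2, h1, add_sub_cancel_right, smul_smul, mul_assoc, inv_mul_cancel₀ hr1, mul_one, add_comm]

lemma between {p q x : E2} {d r : ℝ} (hd : 0 < d) (hdd : ‖q - p‖ = d) (hr : x = p + r • (q - p))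
    (h1 : ‖x - p‖ ≤ d) (h2 : ‖q - x‖ ≤ d) : 0 ≤ r ∧ r ≤ 1 := by
  have e1 : |r| * d ≤ 1 * d := by
    rw [hr, add_sub_cancel_left, norm_smul, Real.norm_eq_abs, hdd] at h1
    linarith
  have e2 : |1 - r| * d ≤ 1 * d := by
    have h3 : q - x = (1 - r) • (q - p) := by
      rw [hr, sub_smul, one_smul]; abel
    rw [h3, norm_smul, Real.norm_eq_abs, hdd] at h2
    linarith
  have g1 := abs_le.1 (le_of_mul_le_mul_right e1 hd)
  have g2 := abs_le.1 (le_of_mul_le_mul_right e2 hd)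
  exact ⟨by linarith, by linarith⟩

lemma exists_far {K : Set E2} (hKc : IsCompact K) (hne : K.Nonempty) :
    ∃ p ∈ K, ∃ q ∈ K, ∀ x ∈ K, ∀ y ∈ K, ‖y - x‖ ≤ ‖q - p‖ := by
  have hcont : Continuous (fun x : E2 × E2 => ‖x.2 - x.1‖) := by fun_prop
  obtain ⟨z, hz, hmax⟩ := (hKc.prod hKc).exists_isMaxOn (hne.prod hne) hcont.continuousOn
  rw [isMaxOn_iff] at hmax
  refine ⟨z.1, hz.1, z.2, hz.2, fun x hx y hy => ?_⟩
  exact hmax (x, y) (Set.mk_mem_prod hx hy)

/-- a compact convex set of the plane without interior points is centrally symmetric -/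
lemma symmetric_of_interior_empty {K : Set E2} (hKc : IsCompact K) (hKv : Convex ℝ K)
    (hne : K.Nonempty) (hint : ¬ (interior K).Nonempty) : ∃ c : E2, ∀ x ∈ K, c - x ∈ K := by
  obtain ⟨p, hp', q, hq', hm⟩ := exists_far hKc hne
  refine ⟨p + q, fun x hx => ?_⟩
  rcases eq_or_ne p q with hpq | hpq
  · have h0 := hm p hp' x hx
    rw [← hpq, sub_self, norm_zero] at h0
    have : x = p := by
      have := norm_le_zero_iff.1 h0
      exact sub_eq_zero.1 this
    rw [this, add_sub_cancel_left]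
    exact hq'
  · obtain ⟨r, hr⟩ := line_point hpq (collinear_of_interior_empty hKv hint hp' hq' hx)
    have hd : 0 < ‖q - p‖ := norm_pos_iff.2 (sub_ne_zero.2 (Ne.symm hpq))
    obtain ⟨g1, g2⟩ := between hd rfl hr (hm p hp' x hx) (hm x hx q hq')
    have h4 : p + q - x = r • p + (1 - r) • q := by
      rw [hr, smul_sub, sub_smul, one_smul]
      abel
    rw [h4]
    exact hKv hp' hq' g1 (by linarith) (by ring)

/-- (C1) implies the problem for two families -/
theorem two_families (H : C1N) {K : Set E2} (hKc : IsCompact K) (hKv : Convex ℝ K)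
    {A B : Set E2} (hA : A.Nonempty) (hB : B.Nonempty)
    (hAB : ∀ a ∈ A, ∀ b ∈ B, ((a +ᵥ K) ∩ (b +ᵥ K)).Nonempty) :
    (∃ P : Finset E2, P.card ≤ 3 ∧ ∀ a ∈ A, ∃ p ∈ P, p ∈ a +ᵥ K) ∨
    (∃ P : Finset E2, P.card ≤ 3 ∧ ∀ b ∈ B, ∃ p ∈ P, p ∈ b +ᵥ K) := by
  classical
  have hKne : K.Nonempty := by
    obtain ⟨a, ha⟩ := hA
    obtain ⟨b, hb⟩ := hB
    obtain ⟨z, hz, _⟩ := hAB a ha b hb
    obtain ⟨k, hk, _⟩ := hz
    exact ⟨k, hk⟩
  by_cases hint : (interior K).Nonempty
  · set e : E2 ≃L[ℝ] (ℝ × ℝ) := (EuclideanSpace.equiv (Fin 2) ℝ).trans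
      (ContinuousLinearEquiv.piFinTwo ℝ (fun _ => ℝ)) with he
    set φ : E2 ≃ₜ (ℝ × ℝ) := e.toHomeomorph.trans (Homeomorph.neg (ℝ × ℝ)) with hφ
    have hφx : ∀ x, φ x = - e x := fun x => rfl
    have hLc : IsCompact (φ '' K) := hKc.image φ.continuous
    have hLv : Convex ℝ (φ '' K) := by
      rintro _ ⟨x, hx, rfl⟩ _ ⟨y, hy, rfl⟩ r s hr hs hrs
      refine ⟨r • x + s • y, hKv hx hy hr hs hrs, ?_⟩
      rw [hφx, hφx, hφx, map_add, map_smul, map_smul, neg_add, smul_neg, smul_neg]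
    have hLi : (interior (φ '' K)).Nonempty := by
      rw [← φ.image_interior]
      exact hint.image _
    have hAB' : ∀ a ∈ e '' A, ∀ b ∈ e '' B, ∃ x ∈ φ '' K, ∃ y ∈ φ '' K, a - b = x - y := by
      rintro _ ⟨a, ha, rfl⟩ _ ⟨b, hb, rfl⟩
      obtain ⟨z, ⟨k, hk, hkz⟩, ⟨k', hk', hkz'⟩⟩ := hAB a ha b hb
      refine ⟨φ k, ⟨k, hk, rfl⟩, φ k', ⟨k', hk', rfl⟩, ?_⟩
      simp only [vadd_eq_add] at hkz hkz'
      have h1 : a + k = b + k' := by rw [hkz, hkz']
      have h2 : a - b = k' - k := by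
        rw [sub_eq_sub_iff_add_eq_add, h1, add_comm]
      rw [hφx, hφx, ← map_sub, h2, map_sub]
      abel
    have hback : ∀ (a : E2) (v : ℝ × ℝ), e a - v ∈ φ '' K → e.symm v ∈ a +ᵥ K := by
      rintro a v ⟨k, hk, hkv⟩
      refine ⟨k, hk, ?_⟩
      simp only [vadd_eq_add]
      apply e.injective
      rw [e.apply_symm_apply, map_add]
      rw [hφx] at hkv
      have : v = e a + e k := by
        have : v = e a - (e a - v) := by abel
        rw [this, ← hkv]
        abel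
      rw [this]
    rcases two H hLc hLv hLi (hA.image e) (hB.image e) hAB' with ⟨v1, v2, v3, hv⟩ | ⟨v1, v2, v3, hv⟩
    · left
      refine ⟨{e.symm v1, e.symm v2, e.symm v3}, Finset.card_le_three, fun a ha => ?_⟩
      rcases hv (e a) ⟨a, ha, rfl⟩ with h | h | h
      · exact ⟨_, by simp, hback a v1 h⟩
      · exact ⟨_, by simp, hback a v2 h⟩
      · exact ⟨_, by simp, hback a v3 h⟩
    · right
      refine ⟨{e.symm v1, e.symm v2, e.symm v3}, Finset.card_le_three, fun a ha => ?_⟩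
      rcases hv (e a) ⟨a, ha, rfl⟩ with h | h | h
      · exact ⟨_, by simp, hback a v1 h⟩
      · exact ⟨_, by simp, hback a v2 h⟩
      · exact ⟨_, by simp, hback a v3 h⟩
  · obtain ⟨c, hc⟩ := symmetric_of_interior_empty hKc hKv hKne hint
    obtain ⟨m, P, hP, hPi⟩ := Pool.Agent.H83.Sym.symmetric (n := 2) le_rfl K hKc hKv ⟨c, hc⟩ ![A, B]
      (by
        intro i
        fin_cases i
        · exact hA
        · exact hB)
      (by
        intro i j hij
        fin_cases i <;> fin_cases j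
        · exact absurd rfl hij
        · exact hAB
        · intro b hb a ha
          rw [Set.inter_comm]
          exact hAB a ha b hb
        · exact absurd rfl hij)
    fin_cases m
    · right
      exact ⟨P, hP, fun b hb => hPi 1 (by decide) b hb⟩
    · left
      exact ⟨P, hP, fun a ha => hPi 0 (by decide) a ha⟩

end Pool.Agent.H17.SR
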