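import Pool.Agent.H17.SR.Defs

/-! H17/SR/Red1: the normal form implies the form with functionals. -/

set_option autoImplicit false

namespace Pool.Agent.H17.SR

/-- a point of the interior can be moved a little in any direction -/
lemma interior_move {L : Set (ℝ × ℝ)} {c : ℝ × ℝ} (hc : c ∈ interior L) (n : ℝ × ℝ) :
    ∃ e : ℝ, 0 < e ∧ c + e • n ∈ L := by
  have h1 : L ∈ nhds c := mem_interior_iff_mem_nhds.1 hc
  obtain ⟨r, hr, hb⟩ := Metric.mem_nhds_iff.1 h1
  refine ⟨r / (2 * (‖n‖ + 1)), by positivity, hb ?_⟩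
  rw [Metric.mem_ball, dist_eq_norm, add_sub_cancel_left, norm_smul, Real.norm_eq_abs,
    abs_of_pos (by positivity)]
  have hn : 0 ≤ ‖n‖ := norm_nonneg n
  rw [div_mul_eq_mul_div, div_lt_iff₀ (by positivity)]
  nlinarith

/-- an invertible linear map of the plane -/
noncomputable def lin (a b c d : ℝ) (h : a * d - b * c ≠ 0) : (ℝ × ℝ) ≃L[ℝ] (ℝ × ℝ) :=
  LinearEquiv.toContinuousLinearEquiv
    { toFun := fun p => (a * p.1 + b * p.2, c * p.1 + d * p.2)
      map_add' := by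
        intro p q
        ext <;> simp <;> ring
      map_smul' := by
        intro t p
        ext <;> simp <;> ring
      invFun := fun q => ((d * q.1 - b * q.2) / (a * d - b * c), (a * q.2 - c * q.1) / (a * d - b * c))
      left_inv := by
        intro p
        ext
        · simp only
          rw [div_eq_iff h]
          ring
        · simp only
          rw [div_eq_iff h]
          ring
      right_inv := by
        intro q
        ext
        · simp only
          rw [mul_div_assoc', mul_div_assoc', ← add_div, div_eq_iff h]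
          ring
        · simp only
          rw [mul_div_assoc', mul_div_assoc', ← add_div, div_eq_iff h]
          ring }

lemma lin_apply (a b c d : ℝ) (h : a * d - b * c ≠ 0) (p : ℝ × ℝ) :
    lin a b c d h p = (a * p.1 + b * p.2, c * p.1 + d * p.2) := rfl

theorem c1g_of_c1n (H : C1N) : C1G := by
  intro L hLc hLv hLi n1 n2 n3 hn hdet P1 P2 P3 Q1 Q2 Q3 hP1 hP2 hP3 hQ1 hQ2 hQ3 h1 h2 h3 lam hlam
    r1 r2 r3 hr
  obtain ⟨c0, hc0⟩ := hLi
  have hc0L : c0 ∈ L := interior_subset hc0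
  have hn3a : n3.1 = - n1.1 - n2.1 := by
    have := congrArg Prod.fst hn
    simp at this
    linarith
  have hn3b : n3.2 = - n1.2 - n2.2 := by
    have := congrArg Prod.snd hn
    simp at this
    linarith
  set D : ℝ := (n1.1 * Q1.1 + n1.2 * Q1.2) + (n2.1 * Q2.1 + n2.2 * Q2.2) +
    (n3.1 * Q3.1 + n3.2 * Q3.2) with hD
  have hDpos : 0 < D := by
    obtain ⟨e, he, heL⟩ := interior_move hc0 n1
    have h1' := (h1 _ heL).2
    have h2' := (h2 _ hc0L).2
    have h3' := (h3 _ hc0L).2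
    simp only [Prod.fst_add, Prod.snd_add, Prod.smul_fst, Prod.smul_snd, smul_eq_mul] at h1'
    have hpos : 0 < n1.1 * n1.1 + n1.2 * n1.2 := by
      rcases eq_or_ne n1.1 0 with h0 | h0
      · rcases eq_or_ne n1.2 0 with h00 | h00
        · exfalso; apply hdet; rw [h0, h00]; ring
        · have := mul_self_pos.2 h00
          nlinarith [mul_self_nonneg n1.1]
      · have := mul_self_pos.2 h0
        nlinarith [mul_self_nonneg n1.2]
    have hpe : 0 < e * (n1.1 * n1.1 + n1.2 * n1.2) := mul_pos he hpos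
    rw [hn3a, hn3b] at h3'
    rw [hD, hn3a, hn3b]
    nlinarith
  have hdet' : (-n1.1 / D) * (-n2.2 / D) - (-n1.2 / D) * (-n2.1 / D) ≠ 0 := by
    have : (-n1.1 / D) * (-n2.2 / D) - (-n1.2 / D) * (-n2.1 / D) =
        (n1.1 * n2.2 - n1.2 * n2.1) / (D * D) := by
      field_simp
    rw [this]
    exact div_ne_zero hdet (by positivity)
  set A := lin (-n1.1 / D) (-n1.2 / D) (-n2.1 / D) (-n2.2 / D) hdet' with hA
  set c : ℝ × ℝ := ((n1.1 * Q1.1 + n1.2 * Q1.2) / D, (n2.1 * Q2.1 + n2.2 * Q2.2) / D) with hc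
  have hAp : ∀ p, A p + c = ((n1.1 * Q1.1 + n1.2 * Q1.2 - (n1.1 * p.1 + n1.2 * p.2)) / D,
      (n2.1 * Q2.1 + n2.2 * Q2.2 - (n2.1 * p.1 + n2.2 * p.2)) / D) := by
    intro p
    rw [hA, lin_apply, hc]
    ext
    · simp only [Prod.mk_add_mk]
      field_simp
      ring
    · simp only [Prod.mk_add_mk]
      field_simp
      ring
  set φ : (ℝ × ℝ) ≃ₜ (ℝ × ℝ) := A.toHomeomorph.trans (Homeomorph.addRight c) with hφ
  have hφp : ∀ p, φ p = A p + c := fun p => rfl
  have e1 : ∀ p, (φ p).1 = (n1.1 * Q1.1 + n1.2 * Q1.2 - (n1.1 * p.1 + n1.2 * p.2)) / D := by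
    intro p; rw [hφp, hAp]
  have e2 : ∀ p, (φ p).2 = (n2.1 * Q2.1 + n2.2 * Q2.2 - (n2.1 * p.1 + n2.2 * p.2)) / D := by
    intro p; rw [hφp, hAp]
  have e3 : ∀ p, 1 - (φ p).1 - (φ p).2 =
      (n3.1 * Q3.1 + n3.2 * Q3.2 - (n3.1 * p.1 + n3.2 * p.2)) / D := by
    intro p
    rw [e1, e2, eq_div_iff hDpos.ne', sub_mul, sub_mul, div_mul_cancel₀ _ hDpos.ne',
      div_mul_cancel₀ _ hDpos.ne', one_mul, hD, hn3a, hn3b]
    ring
  have hconv : Convex ℝ (φ '' L) := by
    rintro _ ⟨p, hp, rfl⟩ _ ⟨q, hq, rfl⟩ s t hs ht hst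
    refine ⟨s • p + t • q, hLv hp hq hs ht hst, ?_⟩
    rw [hφp, hφp, hφp, map_add, map_smul, map_smul, smul_add, smul_add]
    have : c = s • c + t • c := by rw [← add_smul, hst, one_smul]
    nth_rewrite 1 [this]
    abel
  have hint : (interior (φ '' L)).Nonempty := by
    rw [← φ.image_interior]
    exact ⟨φ c0, c0, hc0, rfl⟩
  have key := H (φ '' L) (hLc.image φ.continuous) hconv hint ?_ ?_ ?_ ?_ (φ P1) (φ P2) (φ P3)
    ⟨P1, hP1, rfl⟩ ⟨P2, hP2, rfl⟩ ⟨P3, hP3, rfl⟩ ?_ ?_ ?_ lam hlam (r1 / (lam * D)) (r2 / (lam * D))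
    (r3 / (lam * D)) ?_
  · obtain ⟨v1, v2, v3, hv⟩ := key
    have hlam0 : 0 < lam := by linarith
    have hback : ∀ (p v : ℝ × ℝ), lam • φ p - v ∈ φ '' L →
        lam • p - A.symm (v - lam • c + c) ∈ L := by
      rintro p v ⟨y, hy, hyv⟩
      have : y = lam • p - A.symm (v - lam • c + c) := by
        apply A.injective
        rw [map_sub, map_smul, A.apply_symm_apply]
        rw [hφp, hφp] at hyv
        have : A y = lam • (A p + c) - v - c := by rw [← hyv]; abel
        rw [this, smul_add]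
        abel
      rw [← this]
      exact hy
    refine ⟨A.symm (v1 - lam • c + c), A.symm (v2 - lam • c + c), A.symm (v3 - lam • c + c), ?_⟩
    rintro _ ⟨p, hp, g1, g2, g3, rfl⟩
    have hk := hv (lam • φ p) ⟨φ p, ⟨p, hp, rfl⟩, ?_, ?_, ?_, rfl⟩
    · rcases hk with hk | hk | hk
      · exact Or.inl (hback _ _ hk)
      · exact Or.inr (Or.inl (hback _ _ hk))
      · exact Or.inr (Or.inr (hback _ _ hk))
    · rw [e1, div_le_div_iff₀ hDpos (by positivity)]
      nlinarith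
    · rw [e2, div_le_div_iff₀ hDpos (by positivity)]
      nlinarith
    · rw [e3, div_le_div_iff₀ hDpos (by positivity)]
      nlinarith
  · rintro _ ⟨p, hp, rfl⟩
    refine ⟨?_, ?_, ?_⟩
    · rw [e1]
      exact div_nonneg (by linarith [(h1 p hp).2]) hDpos.le
    · rw [e2]
      exact div_nonneg (by linarith [(h2 p hp).2]) hDpos.le
    · have := div_nonneg (by linarith [(h3 p hp).2] :
        0 ≤ n3.1 * Q3.1 + n3.2 * Q3.2 - (n3.1 * p.1 + n3.2 * p.2)) hDpos.le
      rw [← e3] at this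
      linarith
  · exact ⟨φ Q1, ⟨Q1, hQ1, rfl⟩, by rw [e1]; simp⟩
  · exact ⟨φ Q2, ⟨Q2, hQ2, rfl⟩, by rw [e2]; simp⟩
  · refine ⟨φ Q3, ⟨Q3, hQ3, rfl⟩, ?_⟩
    have := e3 Q3
    rw [sub_self, zero_div] at this
    linarith
  · rintro _ ⟨p, hp, rfl⟩
    rw [e1, e1]
    exact div_le_div_of_nonneg_right (by linarith [(h1 p hp).1]) hDpos.le
  · rintro _ ⟨p, hp, rfl⟩
    rw [e2, e2]
    exact div_le_div_of_nonneg_right (by linarith [(h2 p hp).1]) hDpos.le
  · rintro _ ⟨p, hp, rfl⟩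
    have a := e3 p
    have b := e3 P3
    have := div_le_div_of_nonneg_right (by linarith [(h3 p hp).1] :
      n3.1 * Q3.1 + n3.2 * Q3.2 - (n3.1 * p.1 + n3.2 * p.2) ≤
      n3.1 * Q3.1 + n3.2 * Q3.2 - (n3.1 * P3.1 + n3.2 * P3.2)) hDpos.le
    rw [← a, ← b] at this
    linarith
  · have hlam0 : 0 < lam := by linarith
    have b : 1 - (φ P3).1 - (φ P3).2 = _ := e3 P3
    rw [b, e1, e2, ← add_div, ← add_div, ← add_div, ← add_div, mul_div_assoc',
      div_lt_div_iff₀ (by positivity) hDpos]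
    nlinarith [mul_pos hlam0 hDpos]

end Pool.Agent.H17.SR
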