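import Pool.Agent.H17.SR.Defs

/-! H17/SR/Sep: three compact convex sets of the plane without a common point are separated by three
functionals of sum zero, two of which are independent. -/

set_option autoImplicit false

namespace Pool.Agent.H17.SR

lemma quad_root_free (a b d : ℝ) (hd : 0 < d) :
    ∃ t : ℝ, 0 < t ∧ t ≤ d ∧ a + b * t + t * t ≠ 0 := by
  by_contra hcon
  push Not at hcon
  have h1 := hcon d hd le_rfl
  have h2 := hcon (d / 2) (by positivity) (by linarith)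
  have h3 := hcon (d / 3) (by positivity) (by linarith)
  have hb : b = -(3 / 2) * d := by
    have : d * (b + (3 / 2) * d) = 0 := by nlinarith
    rcases mul_eq_zero.1 this with h | h
    · linarith
    · linarith
  rw [hb] at h2 h3
  nlinarith [mul_pos hd hd]

theorem sep {C1 C2 C3 : Set (ℝ × ℝ)} (c1 : IsCompact C1) (c2 : IsCompact C2) (c3 : IsCompact C3)
    (v1 : Convex ℝ C1) (v2 : Convex ℝ C2) (v3 : Convex ℝ C3)
    (h : ∀ z, z ∈ C1 → z ∈ C2 → z ∈ C3 → False) :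
    ∃ n1 n2 n3 : ℝ × ℝ, n1 + n2 + n3 = 0 ∧ n1.1 * n2.2 - n1.2 * n2.1 ≠ 0 ∧
      ∀ x ∈ C1, ∀ y ∈ C2, ∀ z ∈ C3,
        0 < (n1.1 * x.1 + n1.2 * x.2) + (n2.1 * y.1 + n2.2 * y.2) + (n3.1 * z.1 + n3.2 * z.2) := by
  classical
  set s : Set ((ℝ × ℝ) × (ℝ × ℝ) × (ℝ × ℝ)) := C1 ×ˢ (C2 ×ˢ C3) with hs
  set t : Set ((ℝ × ℝ) × (ℝ × ℝ) × (ℝ × ℝ)) := {p | p.1 = p.2.1 ∧ p.1 = p.2.2} with ht
  have hsc : IsCompact s := c1.prod (c2.prod c3)
  have hsv : Convex ℝ s := v1.prod (v2.prod v3)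
  have htc : IsClosed t := by
    apply IsClosed.inter
    · exact isClosed_eq (by fun_prop) (by fun_prop)
    · exact isClosed_eq (by fun_prop) (by fun_prop)
  have htv : Convex ℝ t := by
    rintro p ⟨hp1, hp2⟩ q ⟨hq1, hq2⟩ a b _ _ _
    refine ⟨?_, ?_⟩
    · simp only [Prod.fst_add, Prod.smul_fst, Prod.snd_add, Prod.smul_snd]
      rw [hp1, hq1]
    · simp only [Prod.fst_add, Prod.smul_fst, Prod.snd_add, Prod.smul_snd]
      rw [hp2, hq2]
  have hdisj : Disjoint s t := by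
    rw [Set.disjoint_left]
    rintro ⟨x, y, z⟩ ⟨hx, hy, hz⟩ ⟨h1, h2⟩
    simp only at h1 h2 hx hy hz
    subst h1
    subst h2
    exact h _ hx hy hz
  obtain ⟨f, u, v, hfs, huv, hft⟩ := geometric_hahn_banach_compact_closed hsv hsc htv htc hdisj
  have hdiag : ∀ z : ℝ × ℝ, f (z, z, z) = 0 := by
    intro z
    by_contra hne
    have h1 := hft (((v - 1) / f (z, z, z)) • (z, z, z)) ⟨rfl, rfl⟩
    rw [map_smul, smul_eq_mul, div_mul_cancel₀ _ hne] at h1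
    linarith
  have hv0 : v < 0 := by
    have := hft ((0 : ℝ × ℝ), (0 : ℝ × ℝ), (0 : ℝ × ℝ)) ⟨rfl, rfl⟩
    have h0 : f ((0 : ℝ × ℝ), (0 : ℝ × ℝ), (0 : ℝ × ℝ)) = 0 := hdiag 0
    linarith
  set m1 : ℝ × ℝ := (-f ((1, 0), 0, 0), -f ((0, 1), 0, 0)) with hm1
  set m2 : ℝ × ℝ := (-f (0, (1, 0), 0), -f (0, (0, 1), 0)) with hm2
  set m3 : ℝ × ℝ := (-f (0, 0, (1, 0)), -f (0, 0, (0, 1))) with hm3
  have hf : ∀ x y z : ℝ × ℝ, -f (x, y, z) =
      (m1.1 * x.1 + m1.2 * x.2) + (m2.1 * y.1 + m2.2 * y.2) + (m3.1 * z.1 + m3.2 * z.2) := by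
    intro x y z
    have hdec : (x, y, z) = x.1 • (((1 : ℝ), (0 : ℝ)), ((0 : ℝ × ℝ), (0 : ℝ × ℝ))) +
        x.2 • (((0 : ℝ), (1 : ℝ)), ((0 : ℝ × ℝ), (0 : ℝ × ℝ))) +
        y.1 • ((0 : ℝ × ℝ), (((1 : ℝ), (0 : ℝ)), (0 : ℝ × ℝ))) +
        y.2 • ((0 : ℝ × ℝ), (((0 : ℝ), (1 : ℝ)), (0 : ℝ × ℝ))) +
        z.1 • ((0 : ℝ × ℝ), ((0 : ℝ × ℝ), ((1 : ℝ), (0 : ℝ)))) +
        z.2 • ((0 : ℝ × ℝ), ((0 : ℝ × ℝ), ((0 : ℝ), (1 : ℝ)))) := by
      ext <;> simp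
    rw [hdec, map_add, map_add, map_add, map_add, map_add, map_smul, map_smul, map_smul, map_smul,
      map_smul, map_smul]
    simp only [smul_eq_mul, hm1, hm2, hm3]
    ring
  have hsum : m1 + m2 + m3 = 0 := by
    have a := hf (1, 0) (1, 0) (1, 0)
    have b := hf (0, 1) (0, 1) (0, 1)
    rw [hdiag] at a b
    simp only [mul_one, mul_zero, add_zero, zero_add, neg_zero] at a b
    ext
    · simp only [Prod.fst_add, Prod.fst_zero]
      linarith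
    · simp only [Prod.snd_add, Prod.snd_zero]
      linarith
  obtain ⟨R, hR0, hR⟩ : ∃ R : ℝ, 0 < R ∧ ∀ x ∈ C1 ∪ C2 ∪ C3, |x.1| ≤ R ∧ |x.2| ≤ R := by
    obtain ⟨R, hR⟩ := ((c1.union c2).union c3).isBounded.exists_norm_le
    refine ⟨max R 1, by positivity, fun x hx => ?_⟩
    have := hR x hx
    rw [Prod.norm_def] at this
    exact ⟨le_trans (le_trans (le_max_left _ _) this) (le_max_left _ _),
      le_trans (le_trans (le_max_right _ _) this) (le_max_left _ _)⟩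
  obtain ⟨δ, hδ, hδ1, hδ2⟩ := quad_root_free (m1.1 * m2.2 - m1.2 * m2.1) (m1.1 + m2.2)
    (-v / (4 * R)) (by apply div_pos <;> linarith)
  refine ⟨m1 + (δ, 0), m2 + (0, δ), m3 + (-δ, -δ), ?_, ?_, ?_⟩
  · have : m1 + (δ, 0) + (m2 + (0, δ)) + (m3 + (-δ, -δ)) = (m1 + m2 + m3) + 0 := by
      ext <;> simp <;> ring
    rw [this, hsum, add_zero]
  · simp only [Prod.fst_add, Prod.snd_add, add_zero]
    intro h0
    apply hδ2
    linarith
  · intro x hx y hy z hz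
    have h1 := hfs (x, y, z) ⟨hx, hy, hz⟩
    have h2 := hf x y z
    have hx' := hR x (Or.inl (Or.inl hx))
    have hy' := hR y (Or.inl (Or.inr hy))
    have hz' := hR z (Or.inr hz)
    simp only [Prod.fst_add, Prod.snd_add, add_zero]
    have hb : δ * (4 * R) ≤ -v := by
      rw [le_div_iff₀ (by positivity)] at hδ1
      exact hδ1
    have g1 := abs_le.1 hx'.1
    have g2 := abs_le.1 hy'.2
    have g3 := abs_le.1 hz'.1
    have g4 := abs_le.1 hz'.2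
    have : -(δ * (4 * R)) ≤ δ * x.1 + δ * y.2 - δ * z.1 - δ * z.2 := by nlinarith
    nlinarith

end Pool.Agent.H17.SR
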