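import Pool.Agent.H17.SR.Red1
import Pool.Agent.H17.SR.Sep

/-! H17/SR/Step: if `A` lies in a translate of `t' L` but in no translate of `t L`, `t` close to `t'`,
and `B` lies in a translate of `t' L`, then `B` is covered by three translates of `(1 + η) L`. -/

set_option autoImplicit false

open scoped Pointwise

namespace Pool.Agent.H17.SR

/-- Helly: a set that lies in no translate of `t L` contains three points with this property -/
lemma helly_three {L : Set (ℝ × ℝ)} (hLc : IsCompact L) (hLv : Convex ℝ L) {A : Set (ℝ × ℝ)}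
    (hA : A.Nonempty) (t : ℝ) (hno : ¬ ∃ z, ∀ a ∈ A, ∃ x ∈ L, a = z + t • x) :
    ∃ a1 ∈ A, ∃ a2 ∈ A, ∃ a3 ∈ A, ∀ z, (∃ x ∈ L, a1 = z + t • x) → (∃ x ∈ L, a2 = z + t • x) →
      (∃ x ∈ L, a3 = z + t • x) → False := by
  classical
  by_contra hcon
  push Not at hcon
  apply hno
  have hF : (⋂ a : A, (fun x => (a : ℝ × ℝ) - t • x) '' L).Nonempty := by
    apply Convex.helly_theorem_compact' (𝕜 := ℝ)
    · rintro ⟨a, ha⟩
      rintro _ ⟨x, hx, rfl⟩ _ ⟨y, hy, rfl⟩ r s hr hs hrs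
      refine ⟨r • x + s • y, hLv hx hy hr hs hrs, ?_⟩
      simp only [smul_sub, smul_add, smul_smul]
      have : a = r • a + s • a := by rw [← add_smul, hrs, one_smul]
      nth_rewrite 1 [this]
      rw [mul_comm t r, mul_comm t s]
      abel
    · rintro ⟨a, ha⟩
      exact hLc.image (by fun_prop)
    · intro I hI
      have hfr : Module.finrank ℝ (ℝ × ℝ) = 2 := by simp
      rw [hfr] at hI
      obtain ⟨a0, ha0⟩ := hA
      have hthree : ∃ b1 b2 b3 : A, I ⊆ {b1, b2, b3} := by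
        have h3 : I.card ≤ 3 := by omega
        rcases Nat.lt_or_ge I.card 1 with h | h
        · have : I = ∅ := by
            apply Finset.card_eq_zero.1; omega
          exact ⟨⟨a0, ha0⟩, ⟨a0, ha0⟩, ⟨a0, ha0⟩, by simp [this]⟩
        · have : I.card = 1 ∨ I.card = 2 ∨ I.card = 3 := by omega
          rcases this with h1 | h1 | h1
          · obtain ⟨b, hb⟩ := Finset.card_eq_one.1 h1
            exact ⟨b, b, b, by simp [hb]⟩
          · obtain ⟨b, c, _, hb⟩ := Finset.card_eq_two.1 h1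
            exact ⟨b, c, c, by simp [hb]⟩
          · obtain ⟨b, c, d, _, _, _, hb⟩ := Finset.card_eq_three.1 h1
            exact ⟨b, c, d, by simp [hb]⟩
      obtain ⟨b1, b2, b3, hb⟩ := hthree
      obtain ⟨z, ⟨x1, hx1, e1⟩, ⟨x2, hx2, e2⟩, ⟨x3, hx3, e3⟩, _⟩ := hcon b1 b1.2 b2 b2.2 b3 b3.2
      refine ⟨z, ?_⟩
      simp only [Set.mem_iInter]
      intro i hi
      have := hb hi
      simp only [Finset.mem_insert, Finset.mem_singleton] at this
      rcases this with h | h | h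
      · exact ⟨x1, hx1, by rw [h, e1]; simp⟩
      · exact ⟨x2, hx2, by rw [h, e2]; simp⟩
      · exact ⟨x3, hx3, by rw [h, e3]; simp⟩
  obtain ⟨z, hz⟩ := hF
  refine ⟨z, fun a ha => ?_⟩
  rw [Set.mem_iInter] at hz
  obtain ⟨x, hx, hxz⟩ := hz ⟨a, ha⟩
  refine ⟨x, hx, ?_⟩
  rw [← hxz]
  simp

lemma exists_max_min {L : Set (ℝ × ℝ)} (hLc : IsCompact L) (hne : L.Nonempty) (n : ℝ × ℝ) :
    ∃ P ∈ L, ∃ Q ∈ L, ∀ p ∈ L, n.1 * P.1 + n.2 * P.2 ≤ n.1 * p.1 + n.2 * p.2 ∧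
      n.1 * p.1 + n.2 * p.2 ≤ n.1 * Q.1 + n.2 * Q.2 := by
  obtain ⟨P, hP, hPm⟩ := hLc.exists_isMinOn hne
    (f := fun p : ℝ × ℝ => n.1 * p.1 + n.2 * p.2) (by fun_prop)
  obtain ⟨Q, hQ, hQm⟩ := hLc.exists_isMaxOn hne
    (f := fun p : ℝ × ℝ => n.1 * p.1 + n.2 * p.2) (by fun_prop)
  exact ⟨P, hP, Q, hQ, fun p hp => ⟨hPm hp, hQm hp⟩⟩

lemma sq_pos_of_det {n1 n2 : ℝ × ℝ} (hdet : n1.1 * n2.2 - n1.2 * n2.1 ≠ 0) :
    0 < n1.1 * n1.1 + n1.2 * n1.2 := by
  rcases eq_or_ne n1.1 0 with h0 | h0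
  · rcases eq_or_ne n1.2 0 with h00 | h00
    · exfalso; apply hdet; rw [h0, h00]; ring
    · have := mul_self_pos.2 h00
      nlinarith [mul_self_nonneg n1.1]
  · have := mul_self_pos.2 h0
    nlinarith [mul_self_nonneg n1.2]

theorem step (H : C1G) {L : Set (ℝ × ℝ)} (hLc : IsCompact L) (hLv : Convex ℝ L)
    (hLi : (interior L).Nonempty) {A B : Set (ℝ × ℝ)} (hA : A.Nonempty)
    (hAB : ∀ a ∈ A, ∀ b ∈ B, ∃ x ∈ L, ∃ y ∈ L, a - b = x - y)
    {η t t' : ℝ} (hη : 0 < η) (h1 : 1 + η < t') (htt : t < t') (h2 : 3 * (t' - t) < η)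
    (z y : ℝ × ℝ) (hAz : ∀ a ∈ A, ∃ x ∈ L, a = z + t' • x) (hBy : ∀ b ∈ B, ∃ x ∈ L, b = y + t' • x)
    (hno : ¬ ∃ z, ∀ a ∈ A, ∃ x ∈ L, a = z + t • x) :
    Cov3 ((1 + η) • L) B := by
  obtain ⟨a1, ha1, a2, ha2, a3, ha3, hna⟩ := helly_three hLc hLv hA t hno
  obtain ⟨c0, hc0⟩ := hLi
  have hc0L : c0 ∈ L := interior_subset hc0
  have hne : L.Nonempty := ⟨c0, hc0L⟩
  have hcv : ∀ a : ℝ × ℝ, Convex ℝ ((fun x => a - t • x) '' L) := by
    rintro a _ ⟨x, hx, rfl⟩ _ ⟨y, hy, rfl⟩ r s hr hs hrs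
    refine ⟨r • x + s • y, hLv hx hy hr hs hrs, ?_⟩
    simp only [smul_sub, smul_add, smul_smul]
    have : a = r • a + s • a := by rw [← add_smul, hrs, one_smul]
    nth_rewrite 1 [this]
    rw [mul_comm t r, mul_comm t s]
    abel
  have hcc : ∀ a : ℝ × ℝ, IsCompact ((fun x => a - t • x) '' L) := fun a => hLc.image (by fun_prop)
  obtain ⟨n1, n2, n3, hn, hdet, hsep⟩ := sep (hcc a1) (hcc a2) (hcc a3) (hcv a1) (hcv a2) (hcv a3)
    (by
      rintro w ⟨x1, hx1, e1⟩ ⟨x2, hx2, e2⟩ ⟨x3, hx3, e3⟩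
      exact hna w ⟨x1, hx1, by rw [← e1]; simp⟩ ⟨x2, hx2, by rw [← e2]; simp⟩
        ⟨x3, hx3, by rw [← e3]; simp⟩)
  obtain ⟨P1, hP1, Q1, hQ1, m1⟩ := exists_max_min hLc hne n1
  obtain ⟨P2, hP2, Q2, hQ2, m2⟩ := exists_max_min hLc hne n2
  obtain ⟨P3, hP3, Q3, hQ3, m3⟩ := exists_max_min hLc hne n3
  have hs := hsep _ ⟨Q1, hQ1, rfl⟩ _ ⟨Q2, hQ2, rfl⟩ _ ⟨Q3, hQ3, rfl⟩
  simp only [Prod.fst_sub, Prod.snd_sub, Prod.smul_fst, Prod.smul_snd, smul_eq_mul] at hs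
  have hn3a : n3.1 = - n1.1 - n2.1 := by
    have := congrArg Prod.fst hn
    simp at this
    linarith
  have hn3b : n3.2 = - n1.2 - n2.2 := by
    have := congrArg Prod.snd hn
    simp at this
    linarith
  -- abbreviations
  set q1 := n1.1 * Q1.1 + n1.2 * Q1.2 with hq1
  set q2 := n2.1 * Q2.1 + n2.2 * Q2.2 with hq2
  set q3 := n3.1 * Q3.1 + n3.2 * Q3.2 with hq3
  set p1 := n1.1 * P1.1 + n1.2 * P1.2 with hp1
  set p2 := n2.1 * P2.1 + n2.2 * P2.2 with hp2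
  set p3 := n3.1 * P3.1 + n3.2 * P3.2 with hp3
  set α1 := n1.1 * a1.1 + n1.2 * a1.2 with hα1
  set α2 := n2.1 * a2.1 + n2.2 * a2.2 with hα2
  set α3 := n3.1 * a3.1 + n3.2 * a3.2 with hα3
  set ζ1 := n1.1 * z.1 + n1.2 * z.2 with hζ1
  set ζ2 := n2.1 * z.1 + n2.2 * z.2 with hζ2
  set ζ3 := n3.1 * z.1 + n3.2 * z.2 with hζ3
  set y1 := n1.1 * y.1 + n1.2 * y.2 with hy1
  set y2 := n2.1 * y.1 + n2.2 * y.2 with hy2
  set y3 := n3.1 * y.1 + n3.2 * y.2 with hy3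
  have hζ : ζ1 + ζ2 + ζ3 = 0 := by
    rw [hζ1, hζ2, hζ3, hn3a, hn3b]; ring
  have hy : y1 + y2 + y3 = 0 := by
    rw [hy1, hy2, hy3, hn3a, hn3b]; ring
  have hs' : t * (q1 + q2 + q3) < α1 + α2 + α3 := by
    rw [hq1, hq2, hq3, hα1, hα2, hα3]
    linarith
  have ht' : 0 < t' := by linarith
  have hα1' : α1 ≤ ζ1 + t' * q1 := by
    obtain ⟨x, hx, e⟩ := hAz a1 ha1
    have e1 := congrArg Prod.fst e
    have e2 := congrArg Prod.snd e
    simp only [Prod.fst_add, Prod.snd_add, Prod.smul_fst, Prod.smul_snd, smul_eq_mul] at e1 e2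
    have := (m1 x hx).2
    have h := mul_le_mul_of_nonneg_left this ht'.le
    rw [hα1, hζ1, e1, e2]
    linarith
  have hα2' : α2 ≤ ζ2 + t' * q2 := by
    obtain ⟨x, hx, e⟩ := hAz a2 ha2
    have e1 := congrArg Prod.fst e
    have e2 := congrArg Prod.snd e
    simp only [Prod.fst_add, Prod.snd_add, Prod.smul_fst, Prod.smul_snd, smul_eq_mul] at e1 e2
    have := (m2 x hx).2
    have h := mul_le_mul_of_nonneg_left this ht'.le
    rw [hα2, hζ2, e1, e2]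
    linarith
  have hα3' : α3 ≤ ζ3 + t' * q3 := by
    obtain ⟨x, hx, e⟩ := hAz a3 ha3
    have e1 := congrArg Prod.fst e
    have e2 := congrArg Prod.snd e
    simp only [Prod.fst_add, Prod.snd_add, Prod.smul_fst, Prod.smul_snd, smul_eq_mul] at e1 e2
    have := (m3 x hx).2
    have h := mul_le_mul_of_nonneg_left this ht'.le
    rw [hα3, hζ3, e1, e2]
    linarith
  have hPsum : p1 + p2 + p3 ≤ 0 := by
    have a := (m1 c0 hc0L).1
    have b := (m2 c0 hc0L).1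
    have c := (m3 c0 hc0L).1
    rw [hn3a, hn3b] at c
    linarith
  have hW1 : p1 < q1 := by
    obtain ⟨e, he, heL⟩ := interior_move hc0 n1
    have h1' := (m1 _ heL).2
    have h2' := (m1 _ hc0L).1
    simp only [Prod.fst_add, Prod.snd_add, Prod.smul_fst, Prod.smul_snd, smul_eq_mul] at h1'
    have hpos := sq_pos_of_det hdet
    have hpe : 0 < e * (n1.1 * n1.1 + n1.2 * n1.2) := mul_pos he hpos
    linarith
  have hW2 : p2 ≤ q2 := le_trans (m2 c0 hc0L).1 (m2 c0 hc0L).2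
  have hW3 : p3 ≤ q3 := le_trans (m3 c0 hc0L).1 (m3 c0 hc0L).2
  set S := q1 + q2 + q3 with hS
  set W := (q1 - p1) + (q2 - p2) + (q3 - p3) with hW
  have hWpos : 0 < W := by rw [hW]; linarith
  have hSW : S ≤ W := by rw [hS, hW]; linarith
  have hη1 : (0 : ℝ) < 1 + η := by linarith
  have hint : (interior ((1 + η) • L)).Nonempty := by
    rw [interior_smul₀ hη1.ne']
    exact ⟨(1 + η) • c0, Set.smul_mem_smul_set hc0⟩
  have hdot : ∀ (n x : ℝ × ℝ), n.1 * ((1 + η) • x).1 + n.2 * ((1 + η) • x).2 =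
      (1 + η) * (n.1 * x.1 + n.2 * x.2) := by
    intro n x
    simp only [Prod.smul_fst, Prod.smul_snd, smul_eq_mul]
    ring
  have key := H ((1 + η) • L) (hLc.smul (1 + η)) (hLv.smul (1 + η)) hint n1 n2 n3 hn hdet
    ((1 + η) • P1) ((1 + η) • P2) ((1 + η) • P3) ((1 + η) • Q1) ((1 + η) • Q2) ((1 + η) • Q3)
    (Set.smul_mem_smul_set hP1) (Set.smul_mem_smul_set hP2) (Set.smul_mem_smul_set hP3)
    (Set.smul_mem_smul_set hQ1) (Set.smul_mem_smul_set hQ2) (Set.smul_mem_smul_set hQ3)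
    (by
      rintro _ ⟨x, hx, rfl⟩
      simp only [hdot]
      exact ⟨mul_le_mul_of_nonneg_left (m1 x hx).1 hη1.le,
        mul_le_mul_of_nonneg_left (m1 x hx).2 hη1.le⟩)
    (by
      rintro _ ⟨x, hx, rfl⟩
      simp only [hdot]
      exact ⟨mul_le_mul_of_nonneg_left (m2 x hx).1 hη1.le,
        mul_le_mul_of_nonneg_left (m2 x hx).2 hη1.le⟩)
    (by
      rintro _ ⟨x, hx, rfl⟩
      simp only [hdot]
      exact ⟨mul_le_mul_of_nonneg_left (m3 x hx).1 hη1.le,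
        mul_le_mul_of_nonneg_left (m3 x hx).2 hη1.le⟩)
    (t' / (1 + η)) (by rw [lt_div_iff₀ hη1]; linarith)
    (q1 - p1 + (y1 - ζ1) + (t' - t) * S) (q2 - p2 + (y2 - ζ2) + (t' - t) * S)
    (q3 - p3 + (y3 - ζ3) + (t' - t) * S)
    (by
      simp only [hdot]
      rw [← hq1, ← hq2, ← hq3, ← hp1, ← hp2, ← hp3]
      have h3 : 3 * (t' - t) * S ≤ 3 * (t' - t) * W :=
        mul_le_mul_of_nonneg_left hSW (by linarith)
      have h4 : 3 * (t' - t) * W < η * W := mul_lt_mul_of_pos_right h2 hWpos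
      have h5 : (1 + η) * q1 - (1 + η) * p1 + ((1 + η) * q2 - (1 + η) * p2) +
          ((1 + η) * q3 - (1 + η) * p3) = W + η * W := by rw [hW]; ring
      rw [h5]
      linarith)
  obtain ⟨v1, v2, v3, hv⟩ := key
  refine ⟨y + v1, y + v2, y + v3, fun b hb => ?_⟩
  obtain ⟨x, hx, hbx⟩ := hBy b hb
  have hlam : (t' / (1 + η)) • ((1 + η) • x) = t' • x := by
    rw [smul_smul, div_mul_cancel₀ _ hη1.ne']
  have hb1 := congrArg Prod.fst hbx
  have hb2 := congrArg Prod.snd hbx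
  simp only [Prod.fst_add, Prod.snd_add, Prod.smul_fst, Prod.smul_snd, smul_eq_mul] at hb1 hb2
  have hmem := hv (t' • x) ⟨(1 + η) • x, Set.smul_mem_smul_set hx, ?_, ?_, ?_, hlam.symm⟩
  · have e : ∀ v : ℝ × ℝ, b - (y + v) = t' • x - v := by
      intro v
      rw [hbx]
      abel
    rw [e, e, e]
    exact hmem
  · simp only [hdot]
    rw [← mul_sub, ← mul_assoc, div_mul_cancel₀ _ hη1.ne', ← hq1]
    obtain ⟨x', hx', y', hy', hxy⟩ := hAB a1 ha1 b hb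
    have g1 := congrArg Prod.fst hxy
    have g2 := congrArg Prod.snd hxy
    simp only [Prod.fst_sub, Prod.snd_sub] at g1 g2
    have k1 := (m1 x' hx').2
    have k2 := (m1 y' hy').1
    have k3 : α1 - (n1.1 * b.1 + n1.2 * b.2) =
        (n1.1 * x'.1 + n1.2 * x'.2) - (n1.1 * y'.1 + n1.2 * y'.2) := by
      rw [hα1]
      linear_combination n1.1 * g1 + n1.2 * g2
    have k4 : n1.1 * b.1 + n1.2 * b.2 = y1 + t' * (n1.1 * x.1 + n1.2 * x.2) := by
      rw [hy1, hb1, hb2]; ring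
    have k5 : t' * S = t' * q1 + t' * q2 + t' * q3 := by rw [hS]; ring
    have k6 : (t' - t) * S = t' * S - t * S := by ring
    rw [k6, k5]
    linarith
  · simp only [hdot]
    rw [← mul_sub, ← mul_assoc, div_mul_cancel₀ _ hη1.ne', ← hq2]
    obtain ⟨x', hx', y', hy', hxy⟩ := hAB a2 ha2 b hb
    have g1 := congrArg Prod.fst hxy
    have g2 := congrArg Prod.snd hxy
    simp only [Prod.fst_sub, Prod.snd_sub] at g1 g2
    have k1 := (m2 x' hx').2
    have k2 := (m2 y' hy').1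
    have k3 : α2 - (n2.1 * b.1 + n2.2 * b.2) =
        (n2.1 * x'.1 + n2.2 * x'.2) - (n2.1 * y'.1 + n2.2 * y'.2) := by
      rw [hα2]
      linear_combination n2.1 * g1 + n2.2 * g2
    have k4 : n2.1 * b.1 + n2.2 * b.2 = y2 + t' * (n2.1 * x.1 + n2.2 * x.2) := by
      rw [hy2, hb1, hb2]; ring
    have k5 : t' * S = t' * q1 + t' * q2 + t' * q3 := by rw [hS]; ring
    have k6 : (t' - t) * S = t' * S - t * S := by ring
    rw [k6, k5]
    linarith
  · simp only [hdot]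
    rw [← mul_sub, ← mul_assoc, div_mul_cancel₀ _ hη1.ne', ← hq3]
    obtain ⟨x', hx', y', hy', hxy⟩ := hAB a3 ha3 b hb
    have g1 := congrArg Prod.fst hxy
    have g2 := congrArg Prod.snd hxy
    simp only [Prod.fst_sub, Prod.snd_sub] at g1 g2
    have k1 := (m3 x' hx').2
    have k2 := (m3 y' hy').1
    have k3 : α3 - (n3.1 * b.1 + n3.2 * b.2) =
        (n3.1 * x'.1 + n3.2 * x'.2) - (n3.1 * y'.1 + n3.2 * y'.2) := by
      rw [hα3]
      linear_combination n3.1 * g1 + n3.2 * g2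
    have k4 : n3.1 * b.1 + n3.2 * b.2 = y3 + t' * (n3.1 * x.1 + n3.2 * x.2) := by
      rw [hy3, hb1, hb2]; ring
    have k5 : t' * S = t' * q1 + t' * q2 + t' * q3 := by rw [hS]; ring
    have k6 : (t' - t) * S = t' * S - t * S := by ring
    rw [k6, k5]
    linarith

end Pool.Agent.H17.SR
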