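import Pool.Agent.H17.SR.Step

/-! H17/SR/Two: limits of covers and the theorem for two families in the plane `ℝ × ℝ`. -/

set_option autoImplicit false

open scoped Pointwise

namespace Pool.Agent.H17.SR

open Filter Topology

lemma bounded_centres {L S : Set (ℝ × ℝ)} {R : ℝ} (hL : ∀ x ∈ L, ‖x‖ ≤ R)
    (hS : ∀ s ∈ S, ‖s‖ ≤ R) (hne : S.Nonempty) {η : ℝ} (hη0 : 0 < η) (hη1 : η ≤ 1)
    (h : Cov3 ((1 + η) • L) S) :
    ∃ v1 ∈ Metric.closedBall (0 : ℝ × ℝ) (3 * R), ∃ v2 ∈ Metric.closedBall (0 : ℝ × ℝ) (3 * R),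
      ∃ v3 ∈ Metric.closedBall (0 : ℝ × ℝ) (3 * R), ∀ s ∈ S, s - v1 ∈ (1 + η) • L ∨
        s - v2 ∈ (1 + η) • L ∨ s - v3 ∈ (1 + η) • L := by
  classical
  obtain ⟨v1, v2, v3, hv⟩ := h
  have hR0 : 0 ≤ R := by
    obtain ⟨s, hs⟩ := hne
    exact le_trans (norm_nonneg s) (hS s hs)
  have hfar : ∀ s ∈ S, ∀ v : ℝ × ℝ, s - v ∈ (1 + η) • L → v ∈ Metric.closedBall (0 : ℝ × ℝ) (3 * R) := by
    rintro s hs v ⟨x, hx, hxe⟩
    rw [mem_closedBall_zero_iff]
    have hv : v = s - (1 + η) • x := by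
      simp only at hxe
      rw [hxe]; abel
    rw [hv]
    calc ‖s - (1 + η) • x‖ ≤ ‖s‖ + ‖(1 + η) • x‖ := norm_sub_le _ _
      _ = ‖s‖ + |1 + η| * ‖x‖ := by rw [norm_smul, Real.norm_eq_abs]
      _ = ‖s‖ + (1 + η) * ‖x‖ := by rw [abs_of_pos (by linarith)]
      _ ≤ R + (1 + η) * R := by
          have h1 := hS s hs
          have h2 := mul_le_mul_of_nonneg_left (hL x hx) (by linarith : (0 : ℝ) ≤ 1 + η)
          linarith
      _ ≤ 3 * R := by nlinarith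
  obtain ⟨v0, hv0, hv0'⟩ : ∃ v0 ∈ Metric.closedBall (0 : ℝ × ℝ) (3 * R), True := by
    obtain ⟨s, hs⟩ := hne
    rcases hv s hs with h | h | h
    · exact ⟨v1, hfar s hs v1 h, trivial⟩
    · exact ⟨v2, hfar s hs v2 h, trivial⟩
    · exact ⟨v3, hfar s hs v3 h, trivial⟩
  set w : ℝ × ℝ → ℝ × ℝ := fun v => if v ∈ Metric.closedBall (0 : ℝ × ℝ) (3 * R) then v else v0 with hw
  have hwm : ∀ v, w v ∈ Metric.closedBall (0 : ℝ × ℝ) (3 * R) := by
    intro v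
    simp only [hw]
    split_ifs with h
    · exact h
    · exact hv0
  have hwe : ∀ s ∈ S, ∀ v, s - v ∈ (1 + η) • L → s - w v ∈ (1 + η) • L := by
    intro s hs v h
    simp only [hw]
    rw [if_pos (hfar s hs v h)]
    exact h
  refine ⟨w v1, hwm v1, w v2, hwm v2, w v3, hwm v3, fun s hs => ?_⟩
  rcases hv s hs with h | h | h
  · exact Or.inl (hwe s hs v1 h)
  · exact Or.inr (Or.inl (hwe s hs v2 h))
  · exact Or.inr (Or.inr (hwe s hs v3 h))

theorem limit_cov {L S : Set (ℝ × ℝ)} (hLc : IsCompact L) (hSb : Bornology.IsBounded S)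
    {η0 : ℝ} (hη0 : 0 < η0) (h : ∀ η, 0 < η → η < η0 → Cov3 ((1 + η) • L) S) : Cov3 L S := by
  rcases S.eq_empty_or_nonempty with rfl | hne
  · exact ⟨0, 0, 0, by simp⟩
  obtain ⟨R1, hR1⟩ := hLc.isBounded.exists_norm_le
  obtain ⟨R2, hR2⟩ := hSb.exists_norm_le
  set R := max R1 R2 with hR
  have hL : ∀ x ∈ L, ‖x‖ ≤ R := fun x hx => le_trans (hR1 x hx) (le_max_left _ _)
  have hS : ∀ x ∈ S, ‖x‖ ≤ R := fun x hx => le_trans (hR2 x hx) (le_max_right _ _)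
  set e : ℕ → ℝ := fun k => min η0 1 * (1 / ((k : ℝ) + 2)) with he
  have he0 : ∀ k, 0 < e k := by
    intro k
    simp only [he]
    positivity
  have hmin1 : min η0 1 ≤ 1 := min_le_right _ _
  have hmin2 : min η0 1 ≤ η0 := min_le_left _ _
  have hmin0 : 0 < min η0 1 := lt_min hη0 one_pos
  have hfrac : ∀ k : ℕ, 1 / ((k : ℝ) + 2) ≤ 1 / 2 := by
    intro k
    apply one_div_le_one_div_of_le (by norm_num)
    have : (0 : ℝ) ≤ k := Nat.cast_nonneg k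
    linarith
  have he1 : ∀ k, e k ≤ 1 := by
    intro k
    simp only [he]
    have := hfrac k
    nlinarith
  have he2 : ∀ k, e k < η0 := by
    intro k
    simp only [he]
    have := hfrac k
    nlinarith
  have helim : Tendsto e atTop (𝓝 0) := by
    have h1 : Tendsto (fun k : ℕ => 1 / ((k : ℝ) + 2)) atTop (𝓝 0) := by
      have h0 := tendsto_one_div_add_atTop_nhds_zero_nat (𝕜 := ℝ)
      have h2 := h0.comp (tendsto_add_atTop_nat 1)
      refine h2.congr (fun k => ?_)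
      simp only [Function.comp_apply, Nat.cast_add, Nat.cast_one]
      congr 1
      ring
    have := h1.const_mul (min η0 1)
    rw [mul_zero] at this
    exact this
  choose v1 hv1 v2 hv2 v3 hv3 hv using fun k => bounded_centres hL hS hne (he0 k) (he1 k)
    (h (e k) (he0 k) (he2 k))
  have hcomp : IsCompact (Metric.closedBall (0 : ℝ × ℝ) (3 * R) ×ˢ
      (Metric.closedBall (0 : ℝ × ℝ) (3 * R) ×ˢ Metric.closedBall (0 : ℝ × ℝ) (3 * R))) :=
    (isCompact_closedBall _ _).prod ((isCompact_closedBall _ _).prod (isCompact_closedBall _ _))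
  obtain ⟨⟨u1, u2, u3⟩, -, φ, hφ, hlim⟩ := hcomp.tendsto_subseq
    (x := fun k => (v1 k, v2 k, v3 k)) (fun k => ⟨hv1 k, hv2 k, hv3 k⟩)
  have l1 : Tendsto (fun k => v1 (φ k)) atTop (𝓝 u1) :=
    (continuous_fst.tendsto _).comp hlim
  have l2 : Tendsto (fun k => v2 (φ k)) atTop (𝓝 u2) :=
    ((continuous_fst.comp continuous_snd).tendsto _).comp hlim
  have l3 : Tendsto (fun k => v3 (φ k)) atTop (𝓝 u3) :=
    ((continuous_snd.comp continuous_snd).tendsto _).comp hlim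
  have hgen : ∀ (s : ℝ × ℝ) (v : ℕ → ℝ × ℝ) (u : ℝ × ℝ), Tendsto (fun k => v (φ k)) atTop (𝓝 u) →
      (∃ᶠ k in atTop, s - v (φ k) ∈ (1 + e (φ k)) • L) → s - u ∈ L := by
    intro s v u hu hf
    have ht : Tendsto (fun k => (1 + e (φ k))⁻¹ • (s - v (φ k))) atTop (𝓝 ((1 + 0 : ℝ)⁻¹ • (s - u))) := by
      apply Tendsto.smul
      · apply Tendsto.inv₀
        · exact tendsto_const_nhds.add (helim.comp hφ.tendsto_atTop)
        · norm_num
      · exact tendsto_const_nhds.sub hu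
    have := hLc.isClosed.mem_of_frequently_of_tendsto (hf.mono (fun k hk => ?_)) ht
    · simpa using this
    · obtain ⟨x, hx, hxe⟩ := hk
      simp only at hxe
      rw [← hxe, smul_smul, inv_mul_cancel₀ (by have := he0 (φ k); positivity), one_smul]
      exact hx
  refine ⟨u1, u2, u3, fun s hs => ?_⟩
  by_contra hcon
  push Not at hcon
  obtain ⟨c1, c2, c3⟩ := hcon
  have f1 : ∀ᶠ k in atTop, ¬ (s - v1 (φ k) ∈ (1 + e (φ k)) • L) := by
    rw [← not_frequently]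
    exact fun hf => c1 (hgen s v1 u1 l1 hf)
  have f2 : ∀ᶠ k in atTop, ¬ (s - v2 (φ k) ∈ (1 + e (φ k)) • L) := by
    rw [← not_frequently]
    exact fun hf => c2 (hgen s v2 u2 l2 hf)
  have f3 : ∀ᶠ k in atTop, ¬ (s - v3 (φ k) ∈ (1 + e (φ k)) • L) := by
    rw [← not_frequently]
    exact fun hf => c3 (hgen s v3 u3 l3 hf)
  obtain ⟨k, g1, g2, g3⟩ := (f1.and (f2.and f3)).exists
  rcases hv (φ k) s hs with h | h | h
  · exact g1 h
  · exact g2 h
  · exact g3 h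

/-- `X` lies in a translate of `t L` -/
def Fits (L X : Set (ℝ × ℝ)) (t : ℝ) : Prop := ∃ z, ∀ a ∈ X, ∃ x ∈ L, a = z + t • x

lemma Fits.mono {L X : Set (ℝ × ℝ)} (hLv : Convex ℝ L) (hne : L.Nonempty) {s t : ℝ} (hs : 0 ≤ s)
    (hst : s ≤ t) (ht : 0 < t) (h : Fits L X s) : Fits L X t := by
  obtain ⟨z, hz⟩ := h
  obtain ⟨c, hc⟩ := hne
  refine ⟨z - (t - s) • c, fun a ha => ?_⟩
  obtain ⟨x, hx, hax⟩ := hz a ha
  refine ⟨(s / t) • x + ((t - s) / t) • c, hLv hx hc (div_nonneg hs ht.le)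
    (div_nonneg (by linarith) ht.le) (by field_simp; ring), ?_⟩
  rw [hax, smul_add, smul_smul, smul_smul, mul_div_cancel₀ _ ht.ne', mul_div_cancel₀ _ ht.ne']
  abel

lemma fits_exists {L A : Set (ℝ × ℝ)} (hLc : IsCompact L) (hLi : (interior L).Nonempty)
    {b : ℝ × ℝ} (hAB : ∀ a ∈ A, ∃ x ∈ L, ∃ y ∈ L, a - b = x - y) :
    ∃ t, 0 < t ∧ Fits L A t := by
  obtain ⟨c, hc⟩ := hLi
  obtain ⟨R, hR⟩ := hLc.isBounded.exists_norm_le
  obtain ⟨r, hr, hb⟩ := Metric.mem_nhds_iff.1 (mem_interior_iff_mem_nhds.1 hc)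
  have hR0 : 0 ≤ R := le_trans (norm_nonneg c) (hR c (interior_subset hc))
  have ht : 0 < (2 * R + 1) / r := by positivity
  refine ⟨(2 * R + 1) / r, ht, b - ((2 * R + 1) / r) • c, fun a ha => ?_⟩
  obtain ⟨x, hx, y, hy, hxy⟩ := hAB a ha
  refine ⟨c + ((2 * R + 1) / r)⁻¹ • (a - b), hb ?_, ?_⟩
  · rw [Metric.mem_ball, dist_eq_norm, add_sub_cancel_left, norm_smul, norm_inv, Real.norm_eq_abs,
      abs_of_pos ht]
    have h1 : ‖a - b‖ ≤ 2 * R := by
      rw [hxy]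
      calc ‖x - y‖ ≤ ‖x‖ + ‖y‖ := norm_sub_le _ _
        _ ≤ 2 * R := by have := hR x hx; have := hR y hy; linarith
    rw [inv_mul_lt_iff₀ ht, div_mul_cancel₀ _ hr.ne']
    linarith
  · rw [smul_add, smul_smul, mul_inv_cancel₀ ht.ne', one_smul]
    abel

lemma cov_of_fits {L X : Set (ℝ × ℝ)} {t : ℝ} (h : Fits L X t) : Cov3 (t • L) X := by
  obtain ⟨z, hz⟩ := h
  refine ⟨z, z, z, fun a ha => ?_⟩
  obtain ⟨x, hx, hax⟩ := hz a ha
  left
  rw [hax, add_sub_cancel_left]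
  exact Set.smul_mem_smul_set hx

lemma bounded_of_fits {L X : Set (ℝ × ℝ)} (hLc : IsCompact L) {t : ℝ} (h : Fits L X t) :
    Bornology.IsBounded X := by
  obtain ⟨z, hz⟩ := h
  have : X ⊆ (fun x => z + t • x) '' L := by
    intro a ha
    obtain ⟨x, hx, hax⟩ := hz a ha
    exact ⟨x, hx, hax.symm⟩
  exact ((hLc.image (by fun_prop)).isBounded).subset this

theorem two_aux (H : C1G) {L : Set (ℝ × ℝ)} (hLc : IsCompact L) (hLv : Convex ℝ L)
    (hLi : (interior L).Nonempty) {A B : Set (ℝ × ℝ)} (hA : A.Nonempty) (hB : B.Nonempty)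
    (hAB : ∀ a ∈ A, ∀ b ∈ B, ∃ x ∈ L, ∃ y ∈ L, a - b = x - y)
    (hle : sInf {t | 0 ≤ t ∧ Fits L B t} ≤ sInf {t | 0 ≤ t ∧ Fits L A t}) :
    Cov3 L A ∨ Cov3 L B := by
  have hne : L.Nonempty := hLi.mono interior_subset
  obtain ⟨a0, ha0⟩ := hA
  obtain ⟨b0, hb0⟩ := hB
  obtain ⟨tA, htA0, htA⟩ := fits_exists hLc hLi (fun a ha => hAB a ha b0 hb0)
  obtain ⟨tB, htB0, htB⟩ := fits_exists (A := B) (b := a0) hLc hLi (fun b hb => by
    obtain ⟨x, hx, y, hy, h⟩ := hAB a0 ha0 b hb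
    exact ⟨y, hy, x, hx, by rw [← neg_sub, h, neg_sub]⟩)
  have hneA : {t | 0 ≤ t ∧ Fits L A t}.Nonempty := ⟨tA, htA0.le, htA⟩
  have hneB : {t | 0 ≤ t ∧ Fits L B t}.Nonempty := ⟨tB, htB0.le, htB⟩
  have hbA : BddBelow {t | 0 ≤ t ∧ Fits L A t} := ⟨0, fun t ht => ht.1⟩
  set αA := sInf {t | 0 ≤ t ∧ Fits L A t} with hαA
  set αB := sInf {t | 0 ≤ t ∧ Fits L B t} with hαB
  have hαA0 : 0 ≤ αA := le_csInf hneA (fun t ht => ht.1)
  have hfitA : ∀ t, αA < t → Fits L A t := by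
    intro t ht
    obtain ⟨s, ⟨hs0, hs⟩, hst⟩ := exists_lt_of_csInf_lt hneA ht
    exact Fits.mono hLv hne hs0 hst.le (lt_of_le_of_lt hs0 hst) hs
  have hfitB : ∀ t, αB < t → Fits L B t := by
    intro t ht
    obtain ⟨s, ⟨hs0, hs⟩, hst⟩ := exists_lt_of_csInf_lt hneB ht
    exact Fits.mono hLv hne hs0 hst.le (lt_of_le_of_lt hs0 hst) hs
  rcases le_or_gt αA 1 with h1 | h1
  · left
    apply limit_cov hLc (bounded_of_fits hLc htA) one_pos
    intro η hη _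
    exact cov_of_fits (hfitA (1 + η) (by linarith))
  · right
    apply limit_cov hLc (bounded_of_fits hLc htB) (η0 := (αA - 1) / 2) (by linarith)
    intro η hη hη2
    obtain ⟨z, hz⟩ := hfitA (αA + η / 8) (by linarith)
    obtain ⟨y, hy⟩ := hfitB (αA + η / 8) (by linarith)
    refine step H hLc hLv hLi ⟨a0, ha0⟩ hAB (t := αA - η / 8) (t' := αA + η / 8) hη (by linarith)
      (by linarith) (by linarith) z y hz hy ?_
    intro hcon
    have : αA ≤ αA - η / 8 := csInf_le hbA ⟨by linarith, hcon⟩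
    linarith

/-- Two families: `A - B ⊆ L - L` implies that `A` or `B` is covered by three translates of `L`. -/
theorem two (H : C1N) {L : Set (ℝ × ℝ)} (hLc : IsCompact L) (hLv : Convex ℝ L)
    (hLi : (interior L).Nonempty) {A B : Set (ℝ × ℝ)} (hA : A.Nonempty) (hB : B.Nonempty)
    (hAB : ∀ a ∈ A, ∀ b ∈ B, ∃ x ∈ L, ∃ y ∈ L, a - b = x - y) :
    Cov3 L A ∨ Cov3 L B := by
  rcases le_total (sInf {t | 0 ≤ t ∧ Fits L B t}) (sInf {t | 0 ≤ t ∧ Fits L A t}) with h | h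
  · exact two_aux (c1g_of_c1n H) hLc hLv hLi hA hB hAB h
  · exact (two_aux (c1g_of_c1n H) hLc hLv hLi hB hA (fun b hb a ha => by
      obtain ⟨x, hx, y, hy, h⟩ := hAB a ha b hb
      exact ⟨y, hy, x, hx, by rw [← neg_sub, h, neg_sub]⟩) h).symm

end Pool.Agent.H17.SR
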